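import Pool.Agent.TBS.All
import Pool.Agent.TBA.All
import Pool.Agent.TBC.All
import Pool.Agent.TBF.GLU

/-!
# Three-body Bose gases: the constant of second order is not a function of the scattering energy

All definitions are in `Pool/Agent/TBG/Def.lean`.
-/

set_option autoImplicit false

open MeasureTheory Filter Topology
open Pool.Agent.TBG

namespace Pool.Agent.Results.MP_80dc41_mp.NegatedForm

/-- The negated form of Q1, at every value `b > 0` of the scattering energy: there are admissible potentials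
`V₁`, `V₂` with `b_M(V₁) = b_M(V₂) = b` which both satisfy the expansion (the thermodynamic limit `e_3B(ρ)` exists for
all `ρ > 0` and `e_3B(ρ) = (1/6) ρ³ b (1 + C ρ + o(ρ))`), with different constants of second order. -/
theorem result : ∀ b : ℝ, 0 < b → ∃ (V₁ V₂ : E → E → ℝ) (C₁ C₂ : ℝ), Admissible V₁ ∧ Admissible V₂ ∧
    bM V₁ = b ∧ bM V₂ = b ∧ HasExpansion V₁ C₁ ∧ HasExpansion V₂ C₂ ∧ C₁ ≠ C₂ := fun b hb =>
  Pool.Agent.TBF.exp_two q_the q_bme q_ltr q_scl q_adm Pool.Agent.TBF.s_pls Pool.Agent.TBL.r_prf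
    Pool.Agent.TBF.s_ob3 (Pool.Agent.TBF.exiE_of Pool.Agent.TBA.a_outa)
    (Pool.Agent.TBF.uppE_of Pool.Agent.TBC.q_gsf Pool.Agent.TBF.s_ob1 Pool.Agent.TBF.s_pls)
    Pool.Agent.TBS.u_lowE b hb

end Pool.Agent.Results.MP_80dc41_mp.NegatedForm
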